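import Mathlib

/-!
# Module INI of the squad T2: the numerical part
-/

set_option autoImplicit false

namespace Pool.Agent.Mob.H5

theorem term1 (d M : ℝ) (n m : ℕ) (hn : 1 ≤ n) (hd : 0 ≤ d) (hM : 1 ≤ M) {x B : ℝ} (hx : 1 ≤ x)
    (hB0 : 0 ≤ B) (hB : B ≤ M ^ n * x ^ n) :
    ((x ^ (14 * n + 3)) ^ 2 * (x ^ (120 * n))⁻¹ * (2 * d * B) ^ 2) ^ (1 / 8 : ℝ) ≤
      (2 * d * M ^ n + 1) / x ^ (6 * n + 1) := by
  have hx0 : 0 < x := by linarith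
  set k : ℝ := 2 * d * M ^ n + 1 with hk
  have hk1 : 1 ≤ k := by
    rw [hk]
    have : 0 ≤ 2 * d * M ^ n := by positivity
    linarith
  have h1 : (2 * d * B) ^ 2 ≤ k ^ 8 * x ^ (2 * n) := by
    have h2 : 2 * d * B ≤ k * x ^ n := by
      calc 2 * d * B ≤ 2 * d * (M ^ n * x ^ n) := mul_le_mul_of_nonneg_left hB (by positivity)
        _ = (2 * d * M ^ n) * x ^ n := by ring
        _ ≤ k * x ^ n := mul_le_mul_of_nonneg_right (by rw [hk]; linarith) (by positivity)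
    calc (2 * d * B) ^ 2 ≤ (k * x ^ n) ^ 2 := pow_le_pow_left₀ (by positivity) h2 2
      _ = k ^ 2 * x ^ (2 * n) := by rw [mul_pow, ← pow_mul, mul_comm n 2]
      _ ≤ k ^ 8 * x ^ (2 * n) :=
          mul_le_mul_of_nonneg_right (pow_le_pow_right₀ hk1 (by norm_num)) (by positivity)
  have h3 : (x ^ (14 * n + 3)) ^ 2 * (x ^ (120 * n))⁻¹ * (2 * d * B) ^ 2 ≤
      (k / x ^ (6 * n + 1)) ^ 8 := by
    calc (x ^ (14 * n + 3)) ^ 2 * (x ^ (120 * n))⁻¹ * (2 * d * B) ^ 2 ≤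
          (x ^ (14 * n + 3)) ^ 2 * (x ^ (120 * n))⁻¹ * (k ^ 8 * x ^ (2 * n)) :=
          mul_le_mul_of_nonneg_left h1 (by positivity)
      _ ≤ (k / x ^ (6 * n + 1)) ^ 8 := by
          rw [div_pow, le_div_iff₀ (by positivity)]
          have h4 : (x ^ (14 * n + 3)) ^ 2 * x ^ (2 * n) * (x ^ (6 * n + 1)) ^ 8 ≤ x ^ (120 * n) := by
            rw [← pow_mul, ← pow_mul, ← pow_add, ← pow_add]
            exact pow_le_pow_right₀ hx (by omega)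
          have h5 : (x ^ (14 * n + 3)) ^ 2 * (x ^ (120 * n))⁻¹ * (k ^ 8 * x ^ (2 * n)) *
              (x ^ (6 * n + 1)) ^ 8 = k ^ 8 * (((x ^ (14 * n + 3)) ^ 2 * x ^ (2 * n) *
                (x ^ (6 * n + 1)) ^ 8) * (x ^ (120 * n))⁻¹) := by ring
          rw [h5]
          have h6 : ((x ^ (14 * n + 3)) ^ 2 * x ^ (2 * n) * (x ^ (6 * n + 1)) ^ 8) *
              (x ^ (120 * n))⁻¹ ≤ 1 := by
            rw [← div_eq_mul_inv, div_le_one (by positivity)]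
            exact h4
          have h7 : 0 ≤ k ^ 8 := by positivity
          nlinarith
  calc ((x ^ (14 * n + 3)) ^ 2 * (x ^ (120 * n))⁻¹ * (2 * d * B) ^ 2) ^ (1 / 8 : ℝ) ≤
        ((k / x ^ (6 * n + 1)) ^ 8) ^ (1 / 8 : ℝ) :=
        Real.rpow_le_rpow (by positivity) h3 (by norm_num)
    _ = k / x ^ (6 * n + 1) := by
        have h8 : (1 / 8 : ℝ) = ((8 : ℕ) : ℝ)⁻¹ := by norm_num
        rw [h8, Real.pow_rpow_inv_natCast (by positivity) (by norm_num)]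

theorem term2 (M c ρ θ : ℝ) (n m : ℕ) (hc : 0 ≤ c) (hρ : 0 ≤ ρ) (hM : 1 ≤ M)
    (hm : 12 * (n : ℝ) + 2 ≤ θ * m) {x B : ℝ} (hx : 1 ≤ x)
    (hB0 : 0 ≤ B) (hB : B ≤ M ^ n * x ^ n) :
    √((1 + 2 * √(6 * ρ)) * ((m + 1) * B ^ 2 * (6 * ρ / x ^ (14 * n + 3)) +
      (c * x ^ (-θ)) ^ m)) ≤
      √((1 + 2 * √(6 * ρ)) * ((m + 1) * (M ^ n) ^ 2 * (6 * ρ) + c ^ m)) / x ^ (6 * n + 1) := by
  have hx0 : 0 < x := by linarith
  have h1 : (m + 1) * B ^ 2 * (6 * ρ / x ^ (14 * n + 3)) ≤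
      ((m + 1) * (M ^ n) ^ 2 * (6 * ρ)) / (x ^ (6 * n + 1)) ^ 2 := by
    rw [le_div_iff₀ (by positivity)]
    have h2 : B ^ 2 ≤ (M ^ n) ^ 2 * x ^ (2 * n) := by
      calc B ^ 2 ≤ (M ^ n * x ^ n) ^ 2 := pow_le_pow_left₀ hB0 hB 2
        _ = _ := by rw [mul_pow, ← pow_mul x, mul_comm n 2]
    have h3 : x ^ (2 * n) * (x ^ (6 * n + 1)) ^ 2 ≤ x ^ (14 * n + 3) := by
      rw [← pow_mul, ← pow_add]
      exact pow_le_pow_right₀ hx (by omega)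
    have h4 : (m + 1 : ℝ) * B ^ 2 * (6 * ρ / x ^ (14 * n + 3)) * (x ^ (6 * n + 1)) ^ 2 =
        ((m + 1 : ℝ) * (6 * ρ)) * (B ^ 2 * (x ^ (6 * n + 1)) ^ 2 / x ^ (14 * n + 3)) := by
      ring
    have h5 : B ^ 2 * (x ^ (6 * n + 1)) ^ 2 / x ^ (14 * n + 3) ≤ (M ^ n) ^ 2 := by
      rw [div_le_iff₀ (by positivity)]
      calc B ^ 2 * (x ^ (6 * n + 1)) ^ 2 ≤ (M ^ n) ^ 2 * x ^ (2 * n) * (x ^ (6 * n + 1)) ^ 2 :=
            mul_le_mul_of_nonneg_right h2 (by positivity)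
        _ = (M ^ n) ^ 2 * (x ^ (2 * n) * (x ^ (6 * n + 1)) ^ 2) := by ring
        _ ≤ _ := mul_le_mul_of_nonneg_left h3 (by positivity)
    rw [h4]
    calc ((m + 1 : ℝ) * (6 * ρ)) * (B ^ 2 * (x ^ (6 * n + 1)) ^ 2 / x ^ (14 * n + 3)) ≤
          ((m + 1 : ℝ) * (6 * ρ)) * (M ^ n) ^ 2 := mul_le_mul_of_nonneg_left h5 (by positivity)
      _ = _ := by ring
  have h2 : (c * x ^ (-θ)) ^ m ≤ c ^ m / (x ^ (6 * n + 1)) ^ 2 := by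
    rw [mul_pow, div_eq_mul_inv]
    refine mul_le_mul_of_nonneg_left ?_ (by positivity)
    have h3 : (x ^ (-θ)) ^ m = x ^ (-(θ * m)) := by
      rw [← Real.rpow_natCast, ← Real.rpow_mul hx0.le]
      congr 1
      ring
    have h4 : ((x ^ (6 * n + 1)) ^ 2)⁻¹ = x ^ (-(12 * (n : ℝ) + 2)) := by
      rw [← pow_mul, Real.rpow_neg hx0.le, ← Real.rpow_natCast]
      congr 2
      push_cast
      ring
    rw [h3, h4]
    exact Real.rpow_le_rpow_of_exponent_le hx (by linarith)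
  have h3 : (1 + 2 * √(6 * ρ)) * ((m + 1) * B ^ 2 * (6 * ρ / x ^ (14 * n + 3)) +
      (c * x ^ (-θ)) ^ m) ≤
      ((1 + 2 * √(6 * ρ)) * ((m + 1) * (M ^ n) ^ 2 * (6 * ρ) + c ^ m)) / (x ^ (6 * n + 1)) ^ 2 := by
    rw [mul_div_assoc (1 + 2 * √(6 * ρ)), add_div]
    exact mul_le_mul_of_nonneg_left (add_le_add h1 h2) (by positivity)
  refine (Real.sqrt_le_sqrt h3).trans (le_of_eq ?_)
  rw [Real.sqrt_div (by positivity), Real.sqrt_sq (by positivity)]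

/-- the numerical part of INI. -/
theorem num (n : ℕ) (hn : 1 ≤ n) (C₀ s θ : ℝ) (hC : 0 < C₀) (hs : 0 < s) (hθ : 0 < θ) :
    ∃ m ℓ₁ : ℕ, 1 ≤ m ∧ 1 ≤ ℓ₁ ∧ ∀ ℓ : ℕ, ℓ₁ ≤ ℓ →
      C₀ * (1 + 1 / s) * (2 * ((10 * (m + 1) * ℓ : ℕ) : ℝ) + 5) ^ (6 * n) *
        ((((ℓ : ℝ) ^ (14 * n + 3)) ^ 2 * (ℓ : ℝ) ^ (-(120 * (n : ℝ))) *
            (2 * n * (20 * (m + 1) * ℓ + 1) ^ n) ^ 2) ^ (1 / 8 : ℝ) +
          √((1 + 2 * √(6 * (1 / s))) * ((m + 1) * ((20 * (m + 1) * ℓ + 1) ^ n) ^ 2 *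
            (6 * (1 / s) / (ℓ : ℝ) ^ (14 * n + 3)) +
            ((20 * m + 23) ^ n * (ℓ : ℝ) ^ (-θ)) ^ m))) ≤ Real.exp (-1) := by
  obtain ⟨m, hm⟩ : ∃ m : ℕ, m = ⌈(12 * (n : ℝ) + 2) / θ⌉₊ + 1 := ⟨_, rfl⟩
  have hmθ : 12 * (n : ℝ) + 2 ≤ θ * m := by
    have h1 : (12 * (n : ℝ) + 2) / θ ≤ m := by
      rw [hm]
      push_cast
      have := Nat.le_ceil ((12 * (n : ℝ) + 2) / θ)
      linarith
    rw [div_le_iff₀ hθ] at h1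
    linarith
  obtain ⟨M, hM⟩ : ∃ M : ℝ, M = 20 * ((m : ℝ) + 1) + 5 := ⟨_, rfl⟩
  have hM1 : 1 ≤ M := by
    rw [hM]
    have : (0 : ℝ) ≤ m := by positivity
    linarith
  obtain ⟨K1, hK1⟩ : ∃ K1 : ℝ, K1 = 2 * (n : ℝ) * M ^ n + 1 := ⟨_, rfl⟩
  obtain ⟨K2, hK2⟩ : ∃ K2 : ℝ, K2 = √((1 + 2 * √(6 * (1 / s))) *
    ((m + 1) * (M ^ n) ^ 2 * (6 * (1 / s)) + ((20 * m + 23) ^ n) ^ m)) := ⟨_, rfl⟩
  have hK10 : 0 ≤ K1 := by rw [hK1]; positivity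
  have hK20 : 0 ≤ K2 := by rw [hK2]; positivity
  obtain ⟨K, hK⟩ : ∃ K : ℝ, K = C₀ * (1 + 1 / s) * M ^ (6 * n) * (K1 + K2) := ⟨_, rfl⟩
  have hK0 : 0 ≤ K := by rw [hK]; positivity
  refine ⟨m, ⌈K * Real.exp 1⌉₊ + 1, by omega, by omega, fun ℓ hℓ => ?_⟩
  have hx1 : (1 : ℝ) ≤ ℓ := by
    have : 1 ≤ ℓ := by omega
    exact_mod_cast this
  have hxK : K * Real.exp 1 ≤ ℓ := by
    have h1 := Nat.le_ceil (K * Real.exp 1)
    have h2 : ((⌈K * Real.exp 1⌉₊ : ℕ) : ℝ) ≤ ℓ := by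
      have : ⌈K * Real.exp 1⌉₊ ≤ ℓ := by omega
      exact_mod_cast this
    linarith
  set x : ℝ := (ℓ : ℝ) with hx
  have hx0 : 0 < x := by linarith
  have hB : (20 * ((m : ℝ) + 1) * x + 1) ^ n ≤ M ^ n * x ^ n := by
    rw [← mul_pow]
    refine pow_le_pow_left₀ (by positivity) ?_ n
    rw [hM, add_mul]
    linarith
  have hL : (2 * ((10 * (m + 1) * ℓ : ℕ) : ℝ) + 5) ^ (6 * n) ≤ M ^ (6 * n) * x ^ (6 * n) := by
    rw [← mul_pow]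
    refine pow_le_pow_left₀ (by positivity) ?_ _
    push_cast
    rw [hM, add_mul, ← hx]
    linarith
  have hA : x ^ (-(120 * (n : ℝ))) = (x ^ (120 * n))⁻¹ := by
    rw [Real.rpow_neg hx0.le, ← Real.rpow_natCast]
    push_cast
    rfl
  rw [hA]
  have t1 := term1 (n : ℝ) M n m hn (by positivity) hM1 hx1
    (B := (20 * ((m : ℝ) + 1) * x + 1) ^ n) (by positivity) hB
  have t2 := term2 M ((20 * (m : ℝ) + 23) ^ n) (1 / s) θ n m (by positivity) (by positivity) hM1 hmθ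
    hx1 (B := (20 * ((m : ℝ) + 1) * x + 1) ^ n) (by positivity) hB
  rw [← hK1] at t1
  rw [← hK2] at t2
  have t3 := add_le_add t1 t2
  rw [← add_div] at t3
  have h0 : 0 ≤ C₀ * (1 + 1 / s) := by positivity
  calc _ ≤ C₀ * (1 + 1 / s) * (M ^ (6 * n) * x ^ (6 * n)) * ((K1 + K2) / x ^ (6 * n + 1)) := by
        refine mul_le_mul (mul_le_mul_of_nonneg_left hL h0) t3 (by positivity) (by positivity)
    _ = K / x := by
        rw [hK, pow_succ]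
        field_simp
    _ ≤ Real.exp (-1) := by
        rw [div_le_iff₀ hx0, Real.exp_neg, inv_mul_eq_div, le_div_iff₀ (Real.exp_pos 1)]
        exact hxK

/-- the choice of the scale. -/
theorem scale (n : ℕ) (hn : 1 ≤ n) (δ : ℝ) (hδ : 0 < δ) (hδ1 : δ ≤ 1) (N : ℕ) :
    ∃ T₀ : ℝ, 1 ≤ T₀ ∧ ∀ T : ℝ, T₀ ≤ T → ∃ ℓ : ℕ, N ≤ ℓ ∧ 1 ≤ ℓ ∧
      (∀ j : ℕ, T ^ (1 / ((n : ℝ) + δ)) ≤ j ↔ ℓ ≤ j) ∧
      (ℓ : ℝ) ^ (-((n : ℝ) + 1)) ≤ 1 / T ∧ 1 / T ≤ (ℓ : ℝ) ^ (-((n : ℝ) + δ / 2)) ∧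
      T ^ (-400 : ℝ) ≤ (ℓ : ℝ) ^ (-(400 * (n : ℝ))) := by
  have hn1 : (1 : ℝ) ≤ n := by exact_mod_cast hn
  have hnδ : 0 < (n : ℝ) + δ := by linarith
  obtain ⟨Y, hY⟩ : ∃ Y : ℝ, Y = max (N : ℝ) (max 1 ((2 : ℝ) ^ ((2 * (n : ℝ) + δ) / δ))) := ⟨_, rfl⟩
  have hY1 : 1 ≤ Y := by rw [hY]; exact (le_max_left _ _).trans (le_max_right _ _)
  have hYN : (N : ℝ) ≤ Y := by rw [hY]; exact le_max_left _ _
  have hY2 : (2 : ℝ) ^ ((2 * (n : ℝ) + δ) / δ) ≤ Y := by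
    rw [hY]; exact (le_max_right _ _).trans (le_max_right _ _)
  refine ⟨Y ^ ((n : ℝ) + δ), Real.one_le_rpow hY1 hnδ.le, fun T hT => ?_⟩
  have hT1 : 1 ≤ T := (Real.one_le_rpow hY1 hnδ.le).trans hT
  have hT0 : 0 < T := by linarith
  obtain ⟨R, hR⟩ : ∃ R : ℝ, R = T ^ (1 / ((n : ℝ) + δ)) := ⟨_, rfl⟩
  have hRT : R ^ ((n : ℝ) + δ) = T := by
    rw [hR, ← Real.rpow_mul hT0.le, one_div_mul_cancel hnδ.ne', Real.rpow_one]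
  have hYR : Y ≤ R := by
    have h1 := Real.rpow_le_rpow (by positivity) hT (by positivity : 0 ≤ 1 / ((n : ℝ) + δ))
    rw [← Real.rpow_mul (by linarith), mul_one_div_cancel hnδ.ne', Real.rpow_one, ← hR] at h1
    exact h1
  have hR1 : 1 ≤ R := hY1.trans hYR
  have hR0 : 0 < R := by linarith
  have hle : R ≤ (⌈R⌉₊ : ℝ) := Nat.le_ceil R
  have hlt : (⌈R⌉₊ : ℝ) ≤ 2 * R := by
    have := Nat.ceil_lt_add_one hR0.le
    linarith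
  have hℓ0 : (0 : ℝ) < (⌈R⌉₊ : ℝ) := by linarith
  have hℓ1 : (1 : ℝ) ≤ (⌈R⌉₊ : ℝ) := by linarith
  -- the main inequality
  have key : (⌈R⌉₊ : ℝ) ^ ((n : ℝ) + δ / 2) ≤ T := by
    have h1 : (2 : ℝ) ^ ((n : ℝ) + δ / 2) ≤ R ^ (δ / 2) := by
      have h2 := Real.rpow_le_rpow (by positivity) (hY2.trans hYR) (by positivity : 0 ≤ δ / 2)
      rw [← Real.rpow_mul (by norm_num)] at h2
      refine le_trans (le_of_eq ?_) h2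
      congr 1
      field_simp
    calc (⌈R⌉₊ : ℝ) ^ ((n : ℝ) + δ / 2) ≤ (2 * R) ^ ((n : ℝ) + δ / 2) :=
          Real.rpow_le_rpow hℓ0.le hlt (by positivity)
      _ = (2 : ℝ) ^ ((n : ℝ) + δ / 2) * R ^ ((n : ℝ) + δ / 2) :=
          Real.mul_rpow (by norm_num) hR0.le
      _ ≤ R ^ (δ / 2) * R ^ ((n : ℝ) + δ / 2) := mul_le_mul_of_nonneg_right h1 (by positivity)
      _ = R ^ ((n : ℝ) + δ) := by
          rw [← Real.rpow_add hR0]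
          congr 1
          ring
      _ = T := hRT
  refine ⟨⌈R⌉₊, ?_, ?_, ?_, ?_, ?_, ?_⟩
  · have : (N : ℝ) ≤ (⌈R⌉₊ : ℝ) := hYN.trans (hYR.trans hle)
    exact_mod_cast this
  · exact_mod_cast hℓ1
  · intro j
    rw [← hR]
    exact Nat.ceil_le.symm
  · rw [Real.rpow_neg hℓ0.le, ← one_div]
    refine one_div_le_one_div_of_le hT0 ?_
    calc T = R ^ ((n : ℝ) + δ) := hRT.symm
      _ ≤ (⌈R⌉₊ : ℝ) ^ ((n : ℝ) + δ) := Real.rpow_le_rpow hR0.le hle hnδ.le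
      _ ≤ (⌈R⌉₊ : ℝ) ^ ((n : ℝ) + 1) := Real.rpow_le_rpow_of_exponent_le hℓ1 (by linarith)
  · rw [Real.rpow_neg hℓ0.le, ← one_div]
    exact one_div_le_one_div_of_le (by positivity) key
  · rw [Real.rpow_neg hT0.le, Real.rpow_neg hℓ0.le]
    refine inv_anti₀ (by positivity) ?_
    have h1 : (⌈R⌉₊ : ℝ) ^ (n : ℝ) ≤ T :=
      (Real.rpow_le_rpow_of_exponent_le hℓ1 (by linarith)).trans key
    calc (⌈R⌉₊ : ℝ) ^ (400 * (n : ℝ)) = ((⌈R⌉₊ : ℝ) ^ (n : ℝ)) ^ (400 : ℝ) := by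
          rw [← Real.rpow_mul hℓ0.le]
          congr 1
          ring
      _ ≤ T ^ (400 : ℝ) := Real.rpow_le_rpow (by positivity) h1 (by norm_num)

end Pool.Agent.Mob.H5
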