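import Pool.Agent.Mob.Stmts
import Pool.Agent.Helper5_Mob.Num

/-!
# Module INI of the squad T2
-/

set_option autoImplicit false

open MeasureTheory ProbabilityTheory Function

open scoped ENNReal BigOperators InnerProductSpace

noncomputable section

namespace Pool.Agent.Mob.H5

open Pool.Agent.Mob Pool.Agent.Anderson Pool.Agent.Loc Pool.Agent.Helper54.Bal

variable {d : ℕ}

theorem spread_eq (V : Site d → ℝ) (T R : ℝ) (J : Set ℝ) (ℓ : ℕ)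
    (h : ∀ j : ℕ, R ≤ j ↔ ℓ ≤ j) :
    spread V T R J = ENNReal.ofReal (1 / T) * spr V 0 (1 / T) J ℓ := by
  unfold spread spr
  rw [← lintegral_const_mul' _ _ ENNReal.ofReal_ne_top]
  refine lintegral_congr fun E => ?_
  rw [← ENNReal.tsum_mul_left]
  refine tsum_congr fun u => ?_
  by_cases hu : ℓ ≤ sd 0 u
  · rw [if_pos hu, if_pos ((h _).2 hu), ← ENNReal.ofReal_mul' (by positivity)]
    congr 1
    ring
  · rw [if_neg hu, if_neg (fun h' => hu ((h _).1 h')), mul_zero]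

/-- INI. -/
theorem ini (hcel : CelStmt) (hann : AnnStmt) : IniStmt := by
  intro d hd C₀ σ hC hσ δ a b E₀ hδ hδ1 ha hb
  obtain ⟨h, hh⟩ : ∃ h : ℝ, h = min (E₀ - a) (b - E₀) / 2 := ⟨_, rfl⟩
  have h0 : 0 < h := by
    rw [hh]
    have : 0 < min (E₀ - a) (b - E₀) := lt_min (by linarith) (by linarith)
    linarith
  have ha2 : a + 2 * h ≤ E₀ := by
    rw [hh]
    have := min_le_left (E₀ - a) (b - E₀)
    linarith
  have hb2 : E₀ + 2 * h ≤ b := by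
    rw [hh]
    have := min_le_right (E₀ - a) (b - E₀)
    linarith
  have hσ' : 0 < |σ| := abs_pos.2 hσ
  obtain ⟨ℓ₀, hℓ₀⟩ := hcel d hd σ hσ (δ / 2) h (by linarith) (by linarith) h0
  obtain ⟨m, ℓ₁, hm, hℓ₁, hnum⟩ := num d hd C₀ |σ| (δ / 2 / 4) hC hσ' (by linarith)
  obtain ⟨T₀, hT₀, hT⟩ := scale d hd δ hδ hδ1 (max ℓ₀ ℓ₁)
  refine ⟨T₀, hT₀, fun T hTT hint => ?_⟩
  obtain ⟨ℓ, hNℓ, hℓ1, hiff, hη1, hη2, hη3⟩ := hT T hTT
  have hspr : ENNReal.ofReal (1 / T) * ∫⁻ V, spr V 0 (1 / T) (Set.Ioo a b) ℓ ∂(PP d (gl σ)) ≤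
      ENNReal.ofReal ((ℓ : ℝ) ^ (-(400 * (d : ℝ)))) := by
    rw [← lintegral_const_mul' _ _ ENNReal.ofReal_ne_top]
    have e : ∀ V : Site d → ℝ, ENNReal.ofReal (1 / T) * spr V 0 (1 / T) (Set.Ioo a b) ℓ =
        spread V T (T ^ (1 / ((d : ℝ) + δ))) (Set.Ioo a b) :=
      fun V => (spread_eq V T _ _ ℓ hiff).symm
    rw [lintegral_congr e]
    exact hint.le.trans (ENNReal.ofReal_le_ofReal hη3)
  have hcell := hℓ₀ ℓ ((le_max_left _ _).trans hNℓ) (1 / T) hη1 hη2 a b hspr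
  refine ⟨h, h0, 10 * (m + 1) * ℓ, fun F hF => ?_⟩
  have hbd := bddDens_gl hσ
  have hx0 : (0 : ℝ) < ℓ := by exact_mod_cast hℓ1
  have hbi := hann d (gl σ) (1 / |σ|) hbd m ℓ ((ℓ : ℝ) ^ (-(120 * (d : ℝ))))
    ((ℓ : ℝ) ^ (14 * d + 3)) ((ℓ : ℝ) ^ (-(δ / 2 / 4))) F hm hℓ1 (by positivity) (by positivity)
    (by positivity) (fun c => hcell F (by linarith [hF.1]) (by linarith [hF.2]) c)
  refine ⟨_, ?_, ?_, hbi⟩
  · positivity
  · exact hnum ℓ ((le_max_right _ _).trans hNℓ)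

end Pool.Agent.Mob.H5
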